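import Pool.Agent.H60FP.Defs
import Pool.Agent.H67FP.Main

/-!
# Rational classes and Tate classes: a projector onto the Lie algebra of the Galois side
-/

set_option autoImplicit false
set_option linter.unusedSectionVars false

open Matrix Pool.Agent.H67FP

namespace Pool.Agent.H60FP

noncomputable section

section ann

variable {ι : Type} [Fintype ι] [DecidableEq ι] (Q : ∀ _ k : ℕ, Ten ℚ ι k → Prop)

/-- The rational matrices which kill all tensors in `Q`. -/
def annQ : Submodule ℚ (Matrix ι ι ℚ) where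
  carrier := {x | ∀ (j k : ℕ) (a : Ten ℚ ι k), Q j k a → der x a = 0}
  add_mem' := by
    intro x y hx hy j k a ha
    rw [← derL_apply, map_add, LinearMap.add_apply, derL_apply, derL_apply, hx j k a ha,
      hy j k a ha, add_zero]
  zero_mem' := by
    intro j k a _
    rw [← derL_apply, map_zero]
    rfl
  smul_mem' := by
    intro c x hx j k a ha
    rw [← derL_apply, map_smul, LinearMap.smul_apply, derL_apply, hx j k a ha, smul_zero]

/-- The matrices which kill all tensors in `Q`. -/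
def ann (K : Type) [Field K] [CharZero K] : Submodule K (Matrix ι ι K) where
  carrier := {x | ∀ (j k : ℕ) (a : Ten ℚ ι k), Q j k a → der x (extT K a) = 0}
  add_mem' := by
    intro x y hx hy j k a ha
    rw [← derL_apply, map_add, LinearMap.add_apply, derL_apply, derL_apply, hx j k a ha,
      hy j k a ha, add_zero]
  zero_mem' := by
    intro j k a _
    rw [← derL_apply, map_zero]
    rfl
  smul_mem' := by
    intro c x hx j k a ha
    rw [← derL_apply, map_smul, LinearMap.smul_apply, derL_apply, hx j k a ha, smul_zero]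

/-- Combinations of tensors in `Q`. -/
def spanQ (K : Type) [Field K] [CharZero K] (j k : ℕ) : Submodule K (Ten K ι k) :=
  Submodule.span K {b | ∃ a, Q j k a ∧ b = extT K a}

variable {Q} {K : Type} [Field K] [CharZero K]

lemma ext_mem_ann {x : Matrix ι ι ℚ} (hx : x ∈ annQ Q) : ext K x ∈ ann Q K := by
  intro j k a ha
  rw [der_extT, hx j k a ha]
  funext i
  simp [extT]

lemma ann_decomp {x : Matrix ι ι K} (hx : x ∈ ann Q K) :
    ∃ (r : ℕ) (b : Fin r → K) (c : Fin r → Matrix ι ι ℚ), (∀ m, c m ∈ annQ Q) ∧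
      x = ∑ m, b m • ext K (c m) := by
  obtain ⟨r, b, c, hb, h⟩ := decompM x
  refine ⟨r, b, c, fun m j k a ha => ?_, h⟩
  have h1 := hx j k a ha
  rw [h, Cohomology.der_sum_ext] at h1
  exact coeffT_zero hb _ h1 m

lemma killed_of_spanQ {x : Matrix ι ι K} (hx : x ∈ ann Q K) {j k : ℕ}
    {a : Ten K ι k} (ha : a ∈ spanQ Q K j k) : der x a = 0 := by
  refine Submodule.span_induction (p := fun a _ => der x a = 0) ?_ ?_ ?_ ?_ ha
  · rintro _ ⟨b, hb, rfl⟩
    exact hx j k b hb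
  · rw [← derL_apply, map_zero]
  · intro b c _ _ hb hc
    rw [← derL_apply, map_add, derL_apply, derL_apply, hb, hc, add_zero]
  · intro q b _ hb
    rw [← derL_apply, map_smul, derL_apply, hb, smul_zero]

/-- `Q` is the set of all tensors of the right degree killed by its annihilator. -/
def Closed (wt : ι → ℕ) (Q : ∀ _ k : ℕ, Ten ℚ ι k → Prop) : Prop :=
  ∀ (j k : ℕ) (a : Ten ℚ ι k), (∀ i, a i ≠ 0 → ∑ r, wt (i r) = 2 * j) →
    (∀ x ∈ annQ Q, der x a = 0) → Q j k a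

lemma mem_spanQ_of_killed {wt : ι → ℕ} (hcl : Closed wt Q) {j k : ℕ} {a : Ten K ι k}
    (ha : ∀ i, a i ≠ 0 → ∑ r, wt (i r) = 2 * j) (h : ∀ x ∈ annQ Q, der (ext K x) a = 0) :
    a ∈ spanQ Q K j k := by
  obtain ⟨r, b, c, hb, hc⟩ := decompT a
  have hcH : ∀ m, Q j k (c m) := by
    intro m
    refine hcl j k _ (fun i hi => ?_) fun x hx => ?_
    · by_contra hne
      apply hi
      have h1 : a i = 0 := by
        by_contra h0
        exact hne (ha i h0)
      refine coeff_zero hb (fun m => c m i) ?_ m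
      rw [← h1, hc, Finset.sum_apply]
      rfl
    · refine coeffT_zero hb (fun m => der x (c m)) ?_ m
      have h3 := h x hx
      rw [hc, ← derL_apply, map_sum] at h3
      rw [← h3]
      refine Finset.sum_congr rfl fun m _ => ?_
      rw [map_smul, derL_apply, der_extT]
  rw [hc]
  exact Submodule.sum_mem _ fun m _ => Submodule.smul_mem _ _ (Submodule.subset_span ⟨_, hcH m, rfl⟩)

lemma der_zero_of_decomp {x : Matrix ι ι K} (hx : x ∈ ann Q K) {k : ℕ} {a : Ten ℚ ι k}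
    (h : ∀ y ∈ annQ Q, der y a = 0) : der x (extT K a) = 0 := by
  obtain ⟨r, b, c, hc, rfl⟩ := ann_decomp hx
  rw [Cohomology.der_sum_ext]
  refine Finset.sum_eq_zero fun t _ => ?_
  rw [h _ (hc t)]
  funext i
  simp [extT]

end ann

end

end Pool.Agent.H60FP

namespace Pool.Agent.H67FP.Cohomology

open Pool.Agent.H60FP

noncomputable section

variable {ℓ : ℕ} [Fact ℓ.Prime] {Γ ι : Type} [Group Γ] [Fintype ι] [DecidableEq ι]
  (D : Cohomology ℓ Γ ι)

/-- Endomorphisms (preserving degrees) of the `ℓ`-adic cohomology which are Tate classes. -/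
def IsTateEnd (e : Matrix ι ι ℚ_[ℓ]) : Prop :=
  (∀ i s, e i s ≠ 0 → D.wt i = D.wt s) ∧ D.IsTate D.d 2 (ofMat (e * ext ℚ_[ℓ] D.Δ))

variable {Q : ∀ _ k : ℕ, Ten ℚ ι k → Prop}

lemma tateEnd_of_comm {z : Matrix ι ι ℚ_[ℓ]} (hz : Blk D.wt z)
    (h : ∀ x ∈ D.gal, x * z = z * x) : D.IsTateEnd z := by
  refine ⟨hz, D.isTate_of_killed (fun i hi => ?_) fun x hx => ?_⟩
  · rw [sum_wt_two]
    obtain ⟨t, _, ht⟩ := Finset.exists_ne_zero_of_sum_ne_zero hi
    have h2 : z (i 0) t ≠ 0 := fun h => ht (by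
      change z (i 0) t * _ = 0
      rw [h, zero_mul])
    have h3 : ext ℚ_[ℓ] D.Δ t (i 1) ≠ 0 := fun h => ht (by
      change _ * ext ℚ_[ℓ] D.Δ t (i 1) = 0
      rw [h, mul_zero])
    rw [hz _ _ h2]
    exact D.wt_of_Δ ℚ_[ℓ] h3
  · have h4 : ext ℚ_[ℓ] D.Δ * xᵀ = -(x * ext ℚ_[ℓ] D.Δ) := by
      rw [eq_neg_iff_add_eq_zero, add_comm]
      exact D.gal_Δ hx
    rw [der_ofMat, Matrix.mul_assoc z, h4, Matrix.mul_neg, ← Matrix.mul_assoc,
      ← Matrix.mul_assoc, h _ hx, add_neg_cancel]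
    rfl

lemma comm_of_killed {x e : Matrix ι ι ℚ_[ℓ]}
    (hx : x * ext ℚ_[ℓ] D.Δ + ext ℚ_[ℓ] D.Δ * xᵀ = 0)
    (h5 : der x (ofMat (e * ext ℚ_[ℓ] D.Δ)) = 0) : x * e = e * x := by
  have h6 : ext ℚ_[ℓ] D.Δ * xᵀ = -(x * ext ℚ_[ℓ] D.Δ) := by
    rw [eq_neg_iff_add_eq_zero, add_comm]
    exact hx
  rw [der_ofMat, Matrix.mul_assoc e, h6, Matrix.mul_neg, ← Matrix.mul_assoc,
    ← Matrix.mul_assoc] at h5
  have h7 := ofMat_inj (N := 0) h5
  have h8 := congrArg (· * ext ℚ_[ℓ] D.Δ⁻¹) h7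
  simp only [Matrix.add_mul, Matrix.neg_mul, Matrix.mul_assoc, D.Δ_inv, Matrix.mul_one,
    Matrix.zero_mul] at h8
  exact add_neg_eq_zero.mp h8

/-- The centre condition for the Tate side. -/
def TateCentre (Q : ∀ _ k : ℕ, Ten ℚ ι k → Prop) : Prop :=
  ∀ z, D.IsTateEnd z → (∀ e, D.IsTateEnd e → z * e = e * z) →
    (∀ (j k : ℕ) (a : Ten ℚ_[ℓ] ι k), D.IsTate j k a → a ∈ spanQ Q ℚ_[ℓ] j k → der z a = 0) →
    ∀ (j k : ℕ) (a : Ten ℚ_[ℓ] ι k), D.IsTate j k a → der z a = 0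

/-- If a projector onto the Lie algebra of the Galois side and the Tate endomorphisms are
combinations of classes in `Q`, and if the centre condition holds, then all Tate classes are. -/
theorem all_in_span (hcl : Closed D.wt Q) (hΔ : Q D.d 2 (ofMat D.Δ)) (hWΔ : Q D.d 2 (ofMat (wtM ℚ D.wt * D.Δ)))
    {f : Matrix ι ι ℚ_[ℓ] →ₗ[ℚ_[ℓ]] Matrix ι ι ℚ_[ℓ]} (hf1 : ∀ y, f y ∈ D.gal)
    (hf2 : ∀ x ∈ D.gal, f x = x) (hfT : D.IsTate (2 * D.d) 4 (ofF (ext ℚ_[ℓ] D.Δ) f))
    (hfQ : ofF (ext ℚ_[ℓ] D.Δ) f ∈ spanQ Q ℚ_[ℓ] (2 * D.d) 4)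
    (hE : ∀ a, D.IsTate D.d 2 a → a ∈ spanQ Q ℚ_[ℓ] D.d 2) (hC : D.TateCentre Q)
    {j k : ℕ} {a : Ten ℚ_[ℓ] ι k} (ha : D.IsTate j k a) : a ∈ spanQ Q ℚ_[ℓ] j k := by
  have hannΔ : ∀ y ∈ ann Q ℚ_[ℓ], y * ext ℚ_[ℓ] D.Δ + ext ℚ_[ℓ] D.Δ * yᵀ = 0 := by
    intro y hy
    have := hy _ _ _ hΔ
    rw [extT_ofMat, der_ofMat] at this
    exact ofMat_inj this
  have hannB : ∀ y ∈ ann Q ℚ_[ℓ], Blk D.wt y := by
    intro y hy
    refine D.blk_of_killed (hannΔ y hy) ?_
    have := hy _ _ _ hWΔ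
    rw [extT_ofMat, der_ofMat, ext_mul, ext_wtM] at this
    exact ofMat_inj this
  have hG : Adj (D.gal : Set (Matrix ι ι ℚ_[ℓ])) f := fun x hx =>
    (ofF_killed_iff (D.Δ_inv ℚ_[ℓ]) f (D.gal_Δ hx)).mp (hx _ _ _ hfT)
  have hA : Adj (ann Q ℚ_[ℓ] : Set (Matrix ι ι ℚ_[ℓ])) f := fun x hx =>
    (ofF_killed_iff (D.Δ_inv ℚ_[ℓ]) f (hannΔ x hx)).mp (killed_of_spanQ hx hfQ)
  have key : ∀ y ∈ ann Q ℚ_[ℓ], y ∈ D.gal := by
    intro y hy
    have h1 : ∀ x ∈ D.gal, x * (y - f y) = (y - f y) * x := fun x hx =>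
      comm_of_proj hf2 hG hA hy hx
    have hb : Blk D.wt (y - f y) := by
      rw [blk_iff, Matrix.mul_sub, Matrix.sub_mul, blk_iff.mp (hannB y hy),
        blk_iff.mp (D.gal_blk (hf1 y))]
    have h2 := D.tateEnd_of_comm hb h1
    have h3 : ∀ e, D.IsTateEnd e → (y - f y) * e = e * (y - f y) := by
      intro e he
      rw [Matrix.mul_sub, Matrix.sub_mul,
        D.comm_of_killed (hannΔ y hy) (killed_of_spanQ hy (hE _ he.2)),
        D.comm_of_killed (D.gal_Δ (hf1 y)) (hf1 y _ _ _ he.2)]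
    have h4 : ∀ (j k : ℕ) (a : Ten ℚ_[ℓ] ι k), D.IsTate j k a → a ∈ spanQ Q ℚ_[ℓ] j k →
        der (y - f y) a = 0 := by
      intro j k a haT ha
      rw [← derL_apply, map_sub, LinearMap.sub_apply, derL_apply, derL_apply,
        killed_of_spanQ hy ha, hf1 y j k _ haT, sub_zero]
    have h5 : y - f y ∈ D.gal := hC _ h2 h3 h4
    have h6 := D.gal.add_mem h5 (hf1 y)
    rwa [sub_add_cancel] at h6
  refine mem_spanQ_of_killed hcl ha.1 fun x hx => ?_
  exact key _ (ext_mem_ann hx) j k a ha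

/-- The centre condition holds if there is a polarization in `Q` the involution of which is trivial
on the centre. -/
theorem tateCentre_of_polarization {b : Matrix ι ι ℚ} (hdet : b.det ≠ 0)
    (hbQ : ∀ w, Q w 2 (fun i => if D.wt (i 0) = w then b (i 0) (i 1) else 0))
    (hbT : ∀ w, D.IsTate w 2
      (extT ℚ_[ℓ] fun i => if D.wt (i 0) = w then b (i 0) (i 1) else 0))
    (hbc : ∀ c, D.IsTateEnd c → (∀ e, D.IsTateEnd e → c * e = e * c) →
      c * ext ℚ_[ℓ] b = ext ℚ_[ℓ] b * cᵀ) : D.TateCentre Q := by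
  intro z hz hzE hzk
  have hzb : Blk D.wt z := hz.1
  have h1 := hbc z hz hzE
  have h2 : z * ext ℚ_[ℓ] b + ext ℚ_[ℓ] b * zᵀ = 0 := by
    have key : ∀ (w : ℕ) (i s : ι), D.wt i = w →
        (z * ext ℚ_[ℓ] b + ext ℚ_[ℓ] b * zᵀ) i s = 0 := by
      intro w i s hiw
      set P : Matrix ι ι ℚ := Matrix.diagonal fun i => if D.wt i = w then 1 else 0 with hP
      have hPK : ext ℚ_[ℓ] P = Matrix.diagonal fun i => if D.wt i = w then 1 else 0 := by
        ext i s
        simp only [hP, ext, Matrix.map_apply, Matrix.diagonal_apply]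
        split_ifs <;> simp
      have hPc : ∀ (M : Matrix ι ι ℚ_[ℓ]), Blk D.wt M →
          ext ℚ_[ℓ] P * M = M * ext ℚ_[ℓ] P := by
        intro M hM
        rw [hPK]
        ext i s
        rw [Matrix.diagonal_mul, Matrix.mul_diagonal]
        by_cases h0 : M i s = 0
        · rw [h0, mul_zero, zero_mul]
        · rw [hM i s h0, mul_comm]
      have hPb : (fun i : Fin 2 → ι => if D.wt (i 0) = w then b (i 0) (i 1) else 0) =
          ofMat (P * b) := by
        funext i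
        rw [ofMat, hP, Matrix.diagonal_mul]
        split_ifs <;> simp
      have hk := hzk w 2 _ (hbT w) (Submodule.subset_span ⟨_, hbQ w, rfl⟩)
      rw [hPb, extT_ofMat, der_ofMat, ext_mul, ← Matrix.mul_assoc, ← hPc _ hzb, Matrix.mul_assoc,
        Matrix.mul_assoc, ← Matrix.mul_add] at hk
      have hk2 := ofMat_inj (N := 0) hk
      have hk3 := congrFun (congrFun hk2 i) s
      rw [hPK, Matrix.diagonal_mul, if_pos hiw, one_mul] at hk3
      exact hk3
    ext i s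
    exact key (D.wt i) i s rfl
  have h3 : z = 0 := by
    rw [← h1, ← two_smul ℚ_[ℓ], smul_eq_zero] at h2
    have h4 : z * ext ℚ_[ℓ] b = 0 := by
      rcases h2 with h | h
      · exact absurd h two_ne_zero
      · exact h
    have h5 : ext ℚ_[ℓ] b * ext ℚ_[ℓ] b⁻¹ = 1 := by
      rw [← ext_mul, Matrix.mul_nonsing_inv _ (isUnit_iff_ne_zero.mpr hdet), ext_one]
    calc z = z * (ext ℚ_[ℓ] b * ext ℚ_[ℓ] b⁻¹) := by rw [h5, Matrix.mul_one]
      _ = z * ext ℚ_[ℓ] b * ext ℚ_[ℓ] b⁻¹ := by rw [Matrix.mul_assoc]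
      _ = 0 := by rw [h4, Matrix.zero_mul]
  intro j k a _
  rw [h3, ← derL_apply, map_zero]
  rfl

end

end Pool.Agent.H67FP.Cohomology
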