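import Pool.Agent.H60FP.Defs

/-!
# Tate classes and rational classes: definitions

The notation (`Ten`, `tp`, `der`, `ext`, `extT`, Tate classes) is that of `Pool.Agent.H67FP.Defs` and
`Pool.Agent.H60FP.Defs`.
-/

set_option autoImplicit false

open Matrix Pool.Agent.H67FP

namespace Pool.Agent.H60FP

noncomputable section

namespace GaloisRep

variable {ℓ : ℕ} [Fact ℓ.Prime] {Γ : Type} [Group Γ] {ι : Type} [Fintype ι] [DecidableEq ι]
  {Y : HodgeData ι} (R : GaloisRep ℓ Γ Y)

/-- `ℓ`-adic Tate classes in `H ^ 2j (Y ^ k, ℚ_ℓ (j))`: tensors with coefficients in `ℚ_ℓ`, of degree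
`2 j`, fixed, after the twist by the `j`-th power of the cyclotomic character, by a subgroup of
finite index of the Galois group. -/
def IsTateClass (j k : ℕ) (a : Ten ℚ_[ℓ] ι k) : Prop := R.all.IsTate j k a

/-- The representation of the Galois group on the endomorphisms of the cohomology, that is on
`H^*(Y × Y)`, is semisimple. -/
def Semisimple : Prop := R.all.GaloisSemisimple

/-- The Lie algebra of the Galois side: the endomorphisms of the `ℓ`-adic cohomology which kill, as
derivations, all Tate classes on all the powers of `Y`. -/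
def InLie (x : Matrix ι ι ℚ_[ℓ]) : Prop :=
  ∀ (j k : ℕ) (a : Ten ℚ_[ℓ] ι k), R.IsTateClass j k a → der x a = 0

/-- The tensor of degree four, an element of `H^*(Y⁴, ℚ_ℓ)`, of a linear map `f : End V → End V`; two
factors `V ⊗ V` are identified with `End V` by means of the class of the diagonal, and the other two
with its dual. -/
def classOf (Y : HodgeData ι) (f : Matrix ι ι ℚ_[ℓ] →ₗ[ℚ_[ℓ]] Matrix ι ι ℚ_[ℓ]) : Ten ℚ_[ℓ] ι 4 :=
  fun i => (f (ext ℚ_[ℓ] Y.Δ * Matrix.single (i 2) (i 3) 1) * ext ℚ_[ℓ] Y.Δ) (i 0) (i 1)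

/-- `f` is a projector from `End V ⊗ ℚ_ℓ` to the Lie algebra of the Galois side and equivariant for an
open subgroup, that is, its tensor is a Tate class in `H ^ 4d (Y⁴, ℚ_ℓ (2d))`. -/
def IsProjector (f : Matrix ι ι ℚ_[ℓ] →ₗ[ℚ_[ℓ]] Matrix ι ι ℚ_[ℓ]) : Prop :=
  (∀ y, R.InLie (f y)) ∧ (∀ x, R.InLie x → f x = x) ∧
    R.IsTateClass (2 * Y.d) 4 (classOf Y f)

/-- Endomorphisms (preserving degrees) of the `ℓ`-adic cohomology which are, as classes in
`H ^ 2d (Y × Y, ℚ_ℓ (d))`, Tate classes. -/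
def IsTateEnd (e : Matrix ι ι ℚ_[ℓ]) : Prop :=
  (∀ i s, e i s ≠ 0 → Y.wt i = Y.wt s) ∧
    R.IsTateClass Y.d 2 (fun i => (e * ext ℚ_[ℓ] Y.Δ) (i 0) (i 1))

end GaloisRep

section family

variable {Γ : Type} [Group Γ] {ι : Type} [Fintype ι] [DecidableEq ι] {Y : HodgeData ι}
  (R : ∀ (p : ℕ) [Fact p.Prime], GaloisRep p Γ Y) (S : Set ℕ)

/-- Rational classes in `H ^ 2j (Y ^ k, ℚ)` which are Hodge classes, and `p`-adic Tate classes for all
primes `p` in `S`. -/
def IsRational (j k : ℕ) (a : Ten ℚ ι k) : Prop :=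
  Y.IsHodge j k a ∧ ∀ (p : ℕ) [Fact p.Prime], p ∈ S → (R p).IsTate j k a

/-- The tensor `a` is a combination, with coefficients in `ℚ_ℓ`, of rational classes which are Hodge
classes, and `p`-adic Tate classes for all primes `p` in `S`. -/
def IsCombination (ℓ : ℕ) [Fact ℓ.Prime] (j k : ℕ) (a : Ten ℚ_[ℓ] ι k) : Prop :=
  a ∈ Submodule.span ℚ_[ℓ] {b | ∃ a, IsRational R S j k a ∧ b = extT ℚ_[ℓ] a}

/-- All `ℓ`-adic Tate classes on all powers of `Y` are combinations of rational classes which are Hodge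
classes, and `p`-adic Tate classes for all primes `p` in `S`. -/
def TateAreRational (ℓ : ℕ) [Fact ℓ.Prime] : Prop :=
  ∀ (j k : ℕ) (a : Ten ℚ_[ℓ] ι k), (R ℓ).IsTateClass j k a → IsCombination R S ℓ j k a

/-- The same for the Tate classes in `H ^ 2d (Y × Y, ℚ_ℓ (d))`, that is, for the endomorphisms of the
Galois representation (restricted to small open subgroups). -/
def TateEndAreRational (ℓ : ℕ) [Fact ℓ.Prime] : Prop :=
  ∀ a : Ten ℚ_[ℓ] ι 2, (R ℓ).IsTateClass Y.d 2 a → IsCombination R S ℓ Y.d 2 a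

/-- The condition on the centre: if an element `z` of the centre of the algebra of the Tate
endomorphisms kills (as a derivation), on all the powers of `Y`, the Tate classes which are
combinations of rational classes, then it kills all Tate classes. -/
def CentreRational (ℓ : ℕ) [Fact ℓ.Prime] : Prop :=
  ∀ z, (R ℓ).IsTateEnd z → (∀ e, (R ℓ).IsTateEnd e → z * e = e * z) →
    (∀ (j k : ℕ) (a : Ten ℚ_[ℓ] ι k), (R ℓ).IsTateClass j k a → IsCombination R S ℓ j k a →
      der z a = 0) →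
    ∀ (j k : ℕ) (a : Ten ℚ_[ℓ] ι k), (R ℓ).IsTateClass j k a → der z a = 0

/-- There are no factors of type IV: there are rational classes `b w` in `H ^ w (Y) ⊗ H ^ w (Y)`
(polarizations) which are Hodge classes and `p`-adic Tate classes for all `p`, the involution of which
is trivial on the centre of the algebra of the `ℓ`-adic Tate endomorphisms. Here `b` is the sum of the
`b w`. -/
def NoTypeFour (ℓ : ℕ) [Fact ℓ.Prime] : Prop :=
  ∃ b : Matrix ι ι ℚ, b.det ≠ 0 ∧
    (∀ w, Y.IsHodge w 2 (fun i => if Y.wt (i 0) = w then b (i 0) (i 1) else 0)) ∧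
    (∀ w (p : ℕ) [Fact p.Prime],
      (R p).IsTate w 2 (fun i => if Y.wt (i 0) = w then b (i 0) (i 1) else 0)) ∧
    ∀ c, (R ℓ).IsTateEnd c → (∀ e, (R ℓ).IsTateEnd e → c * e = e * c) →
      c * ext ℚ_[ℓ] b = ext ℚ_[ℓ] b * cᵀ

end family

end

end Pool.Agent.H60FP
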