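import Pool.Agent.H67FP.Defs

/-!
# One Hodge class on the fourth power of a variety: definitions

The notation (`Ten`, `tp`, `der`, `ext`, `extT`, Tate classes) is that of `Pool.Agent.H67FP.Defs`.
-/

set_option autoImplicit false

open Matrix Pool.Agent.H67FP

namespace Pool.Agent.H60FP

noncomputable section

/-- The rational cohomology `V = H^*(Y, ℚ)` of a smooth projective complex variety `Y` of dimension
`d`, with its Hodge structure, in coordinates: `V = ℚ ^ ι`, the basis vector `i` has degree `wt i`,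
`Δ` is the class of the diagonal in `V ⊗ V`, and `H` is the operator on `V ⊗ ℂ` which multiplies the
part of type `(p, q)` by `p - q`. By the formula of Künneth `H^{2j}(Y ^ k, ℚ)` is the part of degree
`2 j` of the tensor power `V ^ {⊗ k}`. -/
structure HodgeData (ι : Type) [Fintype ι] [DecidableEq ι] where
  /-- the degrees of the elements of the basis of the cohomology -/
  wt : ι → ℕ
  /-- the dimension of the variety -/
  d : ℕ
  /-- the class of the diagonal in `H ^ 2d (Y × Y)` -/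
  Δ : Matrix ι ι ℚ
  /-- the Hodge decomposition: multiplication by `p - q` on the part of type `(p, q)` -/
  H : Matrix ι ι ℂ
  det_Δ : Δ.det ≠ 0
  wt_Δ : ∀ i s, Δ i s ≠ 0 → wt i + wt s = 2 * d
  wt_H : ∀ i s, H i s ≠ 0 → wt i = wt s
  H_Δ : H * ext ℂ Δ + ext ℂ Δ * Hᵀ = 0

namespace HodgeData

variable {ι : Type} [Fintype ι] [DecidableEq ι] (Y : HodgeData ι)

/-- Hodge classes in `H ^ 2j (Y ^ k, ℚ)`: rational tensors of degree `2 j` and of type `(j, j)`. -/
def IsHodge (j k : ℕ) (a : Ten ℚ ι k) : Prop :=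
  (∀ i, a i ≠ 0 → ∑ r, Y.wt (i r) = 2 * j) ∧ der Y.H (extT ℂ a) = 0

/-- The space of rational matrices is a Hodge substructure of the endomorphisms of the
cohomology. -/
def IsSubHodge (W : Submodule ℚ (Matrix ι ι ℚ)) : Prop :=
  ∀ y ∈ W, Y.H * ext ℂ y - ext ℂ y * Y.H ∈ Submodule.span ℂ {x | ∃ y' ∈ W, x = ext ℂ y'}

/-- The Hodge structure of the endomorphisms of the cohomology is semisimple (this is always true,
because it is polarizable). -/
def Semisimple : Prop :=
  ∀ W : Submodule ℚ (Matrix ι ι ℚ), Y.IsSubHodge W → ∃ W', Y.IsSubHodge W' ∧ IsCompl W W'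

/-- Endomorphisms (preserving degrees) of the rational Hodge structure on the cohomology. -/
def IsEnd (e : Matrix ι ι ℚ) : Prop :=
  (∀ i s, e i s ≠ 0 → Y.wt i = Y.wt s) ∧ ext ℂ e * Y.H = Y.H * ext ℂ e

/-- The Lie algebra of the Hodge group: the endomorphisms of the rational cohomology which kill, as
derivations, all Hodge classes on all the powers of `Y`. -/
def InLie (x : Matrix ι ι ℚ) : Prop :=
  ∀ (j k : ℕ) (a : Ten ℚ ι k), Y.IsHodge j k a → der x a = 0

/-- The tensor of degree four, an element of `H^*(Y⁴, ℚ)`, of a linear map `f : End V → End V`; two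
factors `V ⊗ V` are identified with `End V` by means of the class of the diagonal, and the other two
with its dual. -/
def classOf (f : Matrix ι ι ℚ →ₗ[ℚ] Matrix ι ι ℚ) : Ten ℚ ι 4 :=
  fun i => (f (Y.Δ * Matrix.single (i 2) (i 3) 1) * Y.Δ) (i 0) (i 1)

/-- `f` is a projector from `End V` to the Lie algebra of the Hodge group and a morphism of Hodge
structures, that is, its tensor is a Hodge class in `H ^ 4d (Y⁴, ℚ)`. -/
def IsProjector (f : Matrix ι ι ℚ →ₗ[ℚ] Matrix ι ι ℚ) : Prop :=
  (∀ y, Y.InLie (f y)) ∧ (∀ x, Y.InLie x → f x = x) ∧ Y.IsHodge (2 * Y.d) 4 (Y.classOf f)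

end HodgeData

/-- The Galois action on the `ℓ`-adic cohomology `V ⊗ ℚ_ℓ` of a model of `Y` over a field `L`
contained in `ℂ`: `Γ` is the absolute Galois group of `L`, `ρ` its action on the integral
cohomology, and `χ` the cyclotomic character. -/
structure GaloisRep (ℓ : ℕ) [Fact ℓ.Prime] (Γ : Type) [Group Γ] {ι : Type} [Fintype ι]
    [DecidableEq ι] (Y : HodgeData ι) where
  /-- the action of the Galois group on the `ℓ`-adic cohomology -/
  ρ : Γ →* (Matrix ι ι ℤ_[ℓ])ˣ
  /-- the cyclotomic character -/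
  χ : Γ →* ℤ_[ℓ]ˣ
  wt_ρ : ∀ γ i s, (ρ γ).1 i s ≠ 0 → Y.wt i = Y.wt s
  ρ_Δ : ∀ γ, (((χ γ : ℤ_[ℓ]) : ℚ_[ℓ]) ^ Y.d) •
    ((ρ γ).1.map (fun z : ℤ_[ℓ] => (z : ℚ_[ℓ])) * ext ℚ_[ℓ] Y.Δ *
      ((ρ γ).1.map (fun z : ℤ_[ℓ] => (z : ℚ_[ℓ])))ᵀ) = ext ℚ_[ℓ] Y.Δ

namespace GaloisRep

variable {ℓ : ℕ} [Fact ℓ.Prime] {Γ : Type} [Group Γ] {ι : Type} [Fintype ι] [DecidableEq ι]
  {Y : HodgeData ι} (R : GaloisRep ℓ Γ Y)

/-- The Hodge structure and the Galois action together. -/
def all : Cohomology ℓ Γ ι where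
  wt := Y.wt
  d := Y.d
  Δ := Y.Δ
  H := Y.H
  ρ := R.ρ
  χ := R.χ
  det_Δ := Y.det_Δ
  wt_Δ := Y.wt_Δ
  wt_H := Y.wt_H
  wt_ρ := R.wt_ρ
  H_Δ := Y.H_Δ
  ρ_Δ := R.ρ_Δ

/-- The rational tensor `a` is an `ℓ`-adic Tate class in `H ^ 2j (Y ^ k, ℚ_ℓ (j))`: it is of degree
`2 j` and fixed, after the twist by the `j`-th power of the cyclotomic character, by a subgroup of
finite index of the Galois group. -/
def IsTate (j k : ℕ) (a : Ten ℚ ι k) : Prop := R.all.IsTate j k (extT ℚ_[ℓ] a)

/-- All Hodge classes on all powers of `Y` are Tate classes. -/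
def HodgeAreTate : Prop := ∀ (j k : ℕ) (a : Ten ℚ ι k), Y.IsHodge j k a → R.IsTate j k a

/-- All Hodge classes in `H ^ 2d (Y × Y)`, that is, the endomorphisms of the Hodge structure, are
Tate classes. -/
def EndAreTate : Prop := ∀ a : Ten ℚ ι 2, Y.IsHodge Y.d 2 a → R.IsTate Y.d 2 a

/-- The condition on the centre: if an element `z` of the centre of the algebra of endomorphisms of
the Hodge structure, with `ℓ`-adic coefficients, kills (as a derivation) all combinations of Hodge
classes, on all the powers, which are combinations of Tate classes, then it kills all Hodge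
classes. -/
def Centre : Prop :=
  ∀ z ∈ Submodule.span ℚ_[ℓ] {x | ∃ e, Y.IsEnd e ∧ x = ext ℚ_[ℓ] e},
    (∀ e, Y.IsEnd e → z * ext ℚ_[ℓ] e = ext ℚ_[ℓ] e * z) →
    (∀ j k, ∀ a ∈ R.all.tateSpan j k ⊓ R.all.hodgeSpan j k, der z a = 0) →
    ∀ (j k : ℕ) (a : Ten ℚ ι k), Y.IsHodge j k a → der z (extT ℚ_[ℓ] a) = 0

/-- There are no factors of type IV: there are Hodge and Tate classes `b w` in
`H ^ w (Y) ⊗ H ^ w (Y)` (polarizations), the involution of which is trivial on the centre of the
algebra of endomorphisms of the Hodge structure. Here `b` is the sum of the `b w`. -/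
def NoTypeFour : Prop := R.all.NoTypeFour

end GaloisRep

end

end Pool.Agent.H60FP
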