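import Pool.Agent.H67FP.Main

/-!
# The rational projector onto the Lie algebra of the Hodge group

Adapted from `Pool.Agent.H67FP.Hdg` (helper67).
-/

set_option autoImplicit false
set_option linter.unusedSectionVars false

open Matrix

namespace Pool.Agent.H67FP

noncomputable section

namespace Cohomology

variable {ℓ : ℕ} [Fact ℓ.Prime] {Γ ι : Type} [Group Γ] [Fintype ι] [DecidableEq ι]
  (D : Cohomology ℓ Γ ι)

/-- A rational projection onto the Lie algebra of the Hodge side whose tensor is a Hodge class. -/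
lemma exists_kappa (hss : D.HodgeSemisimple) :
    ∃ f : Matrix ι ι ℚ →ₗ[ℚ] Matrix ι ι ℚ,
      D.IsHodge (2 * D.d) 4 (ofF D.Δ f) ∧ (∀ y, f y ∈ D.mtQ) ∧ ∀ x ∈ D.mtQ, f x = x := by
  obtain ⟨W', hW', hc⟩ := hss D.mtQ D.isSubHodge_mtQ
  set π : Matrix ι ι ℚ →ₗ[ℚ] Matrix ι ι ℚ :=
    D.mtQ.subtype ∘ₗ Submodule.projectionOnto D.mtQ W' hc with hπ
  have hπ1 : ∀ y, π y ∈ D.mtQ := fun y => (Submodule.projectionOnto D.mtQ W' hc y).2
  have hπ2 : ∀ y ∈ D.mtQ, π y = y := fun y hy => by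
    have := Submodule.projectionOnto_apply_left hc ⟨y, hy⟩
    simp only at this
    rw [hπ, LinearMap.comp_apply, this]
    rfl
  have hπ3 : ∀ y ∈ W', π y = 0 := fun y hy => by
    have := Submodule.projectionOnto_apply_right hc ⟨y, hy⟩
    simp only at this
    rw [hπ, LinearMap.comp_apply, this, map_zero]
  have hP1 : ∀ w ∈ Submodule.span ℂ {x | ∃ y' ∈ D.mtQ, x = ext ℂ y'}, extF ℂ π w = w := by
    intro w hw
    refine Submodule.span_induction (p := fun w _ => extF ℂ π w = w) ?_ ?_ ?_ ?_ hw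
    · rintro _ ⟨y, hy, rfl⟩
      rw [extF_ext, hπ2 y hy]
    · rw [map_zero]
    · intro u v _ _ hu hv
      rw [map_add, hu, hv]
    · intro q u _ hu
      rw [map_smul, hu]
  have hP2 : ∀ w ∈ Submodule.span ℂ {x | ∃ y' ∈ W', x = ext ℂ y'}, extF ℂ π w = 0 := by
    intro w hw
    refine Submodule.span_induction (p := fun w _ => extF ℂ π w = 0) ?_ ?_ ?_ ?_ hw
    · rintro _ ⟨y, hy, rfl⟩
      rw [extF_ext, hπ3 y hy, ext_zero]
    · rw [map_zero]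
    · intro u v _ _ hu hv
      rw [map_add, hu, hv, add_zero]
    · intro q u _ hu
      rw [map_smul, hu, smul_zero]
  have hP3 : ∀ y, D.H * ext ℂ (π y) - ext ℂ (π y) * D.H =
      extF ℂ π (D.H * ext ℂ y - ext ℂ y * D.H) := by
    intro y
    obtain ⟨u, hu, v, hv, rfl⟩ : ∃ u ∈ D.mtQ, ∃ v ∈ W', u + v = y := by
      have : y ∈ D.mtQ ⊔ W' := by rw [hc.sup_eq_top]; trivial
      obtain ⟨u, hu, v, hv, h⟩ := Submodule.mem_sup.mp this
      exact ⟨u, hu, v, hv, h⟩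
    have h1 : D.H * ext ℂ (u + v) - ext ℂ (u + v) * D.H =
        (D.H * ext ℂ u - ext ℂ u * D.H) + (D.H * ext ℂ v - ext ℂ v * D.H) := by
      rw [ext_add, Matrix.mul_add, Matrix.add_mul]
      abel
    rw [h1, map_add, map_add, hπ2 u hu, hπ3 v hv, add_zero, hP1 _ (D.isSubHodge_mtQ u hu),
      hP2 _ (hW' v hv), add_zero]
  set f := π ∘ₗ mask D.wt with hf
  have hf1 : ∀ y, f y ∈ D.mtQ := fun y => hπ1 _
  have hf2 : ∀ x ∈ D.mtQ, f x = x := fun x hx => by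
    rw [hf, LinearMap.comp_apply, mask_of_blk (D.mtQ_blk hx), hπ2 x hx]
  have hfK : ∀ (L : Type) [Field L] [CharZero L] (y : Matrix ι ι L),
      extF L f y = extF L π (mask D.wt y) := by
    intro L _ _ y
    refine lin_ext_eq (F := extF L f) (G := extF L π ∘ₗ mask D.wt) (fun y => ?_) y
    rw [extF_ext]
    change ext L (π (mask D.wt y)) = extF L π (mask D.wt (ext L y))
    rw [← ext_mask, extF_ext]
  have hmem : ∀ (L : Type) [Field L] [CharZero L] (y : Matrix ι ι L), extF L f y ∈ D.mt L := by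
    intro L _ _ y
    refine Submodule.sum_mem _ fun a _ => Submodule.sum_mem _ fun b _ => ?_
    exact Submodule.smul_mem _ _ (D.ext_mem_mt (hf1 _))
  have hWadj : ∀ (L : Type) [Field L] [CharZero L], Adj {wtM L D.wt} (extF L f) := by
    rintro L _ _ _ rfl y
    have hW : Blk D.wt (wtM L D.wt) := by
      rw [blk_iff]
    have h1 : wtM L D.wt * extF L f y = extF L f y * wtM L D.wt := blk_iff.mp (D.mt_blk (hmem L y))
    have h2 : mask D.wt (wtM L D.wt * y - y * wtM L D.wt) = 0 := by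
      rw [map_sub, mask_mul_left hW, mask_mul_right hW, blk_iff.mp (mask_blk _ _), sub_self]
    rw [h1, sub_self, hfK, h2, map_zero]
  refine ⟨f, ⟨fun i hi => ?_, ?_⟩, hf1, hf2⟩
  · refine D.ofF_wt (K := ℂ) (hWadj ℂ) i ?_
    rw [← extT_ofF]
    simpa [extT] using hi
  · rw [extT_ofF, ofF_killed_iff (D.Δ_inv ℂ) _ (D.mt_Δ D.H_mem)]
    intro y
    refine lin_ext_eq (F := (LinearMap.mulLeft ℂ D.H - LinearMap.mulRight ℂ D.H) ∘ₗ extF ℂ f)
      (G := extF ℂ f ∘ₗ (LinearMap.mulLeft ℂ D.H - LinearMap.mulRight ℂ D.H)) (fun y => ?_) y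
    simp only [LinearMap.comp_apply, LinearMap.sub_apply, LinearMap.mulLeft_apply,
      LinearMap.mulRight_apply]
    rw [extF_ext, hfK ℂ (D.H * ext ℂ y - ext ℂ y * D.H), map_sub, mask_mul_left D.H_blk,
      mask_mul_right D.H_blk, ← ext_mask, ← hP3]
    rfl

variable {K : Type} [Field K] [CharZero K]

lemma extF_mem_mt {f : Matrix ι ι ℚ →ₗ[ℚ] Matrix ι ι ℚ} (hf : ∀ y, f y ∈ D.mtQ)
    (y : Matrix ι ι K) : extF K f y ∈ D.mt K := by
  refine Submodule.sum_mem _ fun a _ => Submodule.sum_mem _ fun b _ => ?_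
  exact Submodule.smul_mem _ _ (D.ext_mem_mt (hf _))

lemma extF_of_mem_mt {f : Matrix ι ι ℚ →ₗ[ℚ] Matrix ι ι ℚ} (hf : ∀ x ∈ D.mtQ, f x = x)
    {x : Matrix ι ι K} (hx : x ∈ D.mt K) : extF K f x = x := by
  obtain ⟨r, b, c, hc, h⟩ := D.mt_decomp hx
  rw [h, map_sum]
  refine Finset.sum_congr rfl fun m _ => ?_
  rw [map_smul, extF_ext, hf _ (hc m)]

lemma extF_adj_mt {f : Matrix ι ι ℚ →ₗ[ℚ] Matrix ι ι ℚ}
    (hf : D.IsHodge (2 * D.d) 4 (ofF D.Δ f)) :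
    Adj (D.mt K : Set (Matrix ι ι K)) (extF K f) := by
  intro x hx y
  refine (ofF_killed_iff (D.Δ_inv K) _ (D.mt_Δ hx)).mp ?_ y
  rw [← extT_ofF]
  exact hx _ _ _ hf

/-- Hodge classes of degree two in `H ^ 2d (Y × Y)` which are Tate classes commute, as
endomorphisms, with the Lie algebra of the Galois side. -/
lemma gal_comm_of_tate {e : Matrix ι ι ℚ}
    (he : D.IsTate D.d 2 (extT ℚ_[ℓ] (ofMat (e * D.Δ)))) {x : Matrix ι ι ℚ_[ℓ]}
    (hx : x ∈ D.gal) : x * ext ℚ_[ℓ] e = ext ℚ_[ℓ] e * x := by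
  have h5 := D.killed_of_tateSpan hx (Submodule.subset_span he)
  have h6 : ext ℚ_[ℓ] D.Δ * xᵀ = -(x * ext ℚ_[ℓ] D.Δ) := by
    rw [eq_neg_iff_add_eq_zero, add_comm]
    exact D.gal_Δ hx
  rw [extT_ofMat, der_ofMat, ext_mul, Matrix.mul_assoc (ext ℚ_[ℓ] e), h6, Matrix.mul_neg,
    ← Matrix.mul_assoc, ← Matrix.mul_assoc] at h5
  have h7 := ofMat_inj (N := 0) h5
  have h8 := congrArg (· * ext ℚ_[ℓ] D.Δ⁻¹) h7
  simp only [Matrix.add_mul, Matrix.neg_mul, Matrix.mul_assoc, D.Δ_inv, Matrix.mul_one,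
    Matrix.zero_mul] at h8
  exact add_neg_eq_zero.mp h8

lemma isHodge_of_end {e : Matrix ι ι ℚ} (he : D.IsHodgeEnd e) :
    D.IsHodge D.d 2 (ofMat (e * D.Δ)) := by
  refine ⟨fun i hi => ?_, ?_⟩
  · rw [sum_wt_two]
    obtain ⟨t, _, ht⟩ := Finset.exists_ne_zero_of_sum_ne_zero hi
    have h2 : e (i 0) t ≠ 0 := fun h => ht (by
      change e (i 0) t * _ = 0
      rw [h, zero_mul])
    have h3 : D.Δ t (i 1) ≠ 0 := fun h => ht (by
      change _ * D.Δ t (i 1) = 0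
      rw [h, mul_zero])
    rw [he.1 _ _ h2]
    exact D.wt_Δ _ _ h3
  · have h4 : ext ℂ D.Δ * D.Hᵀ = -(D.H * ext ℂ D.Δ) := by
      rw [eq_neg_iff_add_eq_zero, add_comm]
      exact D.H_Δ
    rw [extT_ofMat, der_ofMat, ext_mul, Matrix.mul_assoc (ext ℂ e), h4, Matrix.mul_neg,
      ← Matrix.mul_assoc, ← Matrix.mul_assoc, he.2, add_neg_cancel]
    rfl

/-- The centre condition of the Hodge side. -/
def HodgeCentre : Prop :=
  ∀ z ∈ Submodule.span ℚ_[ℓ] {x | ∃ e, D.IsHodgeEnd e ∧ x = ext ℚ_[ℓ] e},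
    (∀ e, D.IsHodgeEnd e → z * ext ℚ_[ℓ] e = ext ℚ_[ℓ] e * z) →
    (∀ j k, ∀ a ∈ D.tateSpan j k ⊓ D.hodgeSpan j k, der z a = 0) →
    ∀ j k, ∀ a ∈ D.hodgeSpan j k, der z a = 0

lemma hodgeCentre_of (h : D.CentresAgree) : D.HodgeCentre :=
  fun z hz hE hk j k a ha => h z hz hE hk j k a (Submodule.mem_sup_right ha)

/-- If the projector onto the Lie algebra of the Hodge side and the endomorphisms are Tate classes,
and if the centre condition holds, then all Hodge classes are Tate classes. -/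
theorem all_tate {f : Matrix ι ι ℚ →ₗ[ℚ] Matrix ι ι ℚ}
    (hf : D.IsHodge (2 * D.d) 4 (ofF D.Δ f)) (hf1 : ∀ y, f y ∈ D.mtQ) (hf2 : ∀ x ∈ D.mtQ, f x = x)
    (hT : D.IsTate (2 * D.d) 4 (extT ℚ_[ℓ] (ofF D.Δ f)))
    (hE : ∀ a, D.IsHodge D.d 2 a → D.IsTate D.d 2 (extT ℚ_[ℓ] a)) (hC : D.HodgeCentre)
    {j k : ℕ} {a : Ten ℚ ι k} (ha : D.IsHodge j k a) : D.IsTate j k (extT ℚ_[ℓ] a) := by
  set τ := extF ℚ_[ℓ] f with hτ
  have hτ1 : ∀ y, τ y ∈ D.mt ℚ_[ℓ] := D.extF_mem_mt hf1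
  have hτ2 : ∀ x ∈ D.mt ℚ_[ℓ], τ x = x := fun x hx => D.extF_of_mem_mt hf2 hx
  have hτM : Adj (D.mt ℚ_[ℓ] : Set (Matrix ι ι ℚ_[ℓ])) τ := D.extF_adj_mt hf
  have hτG : Adj (D.gal : Set (Matrix ι ι ℚ_[ℓ])) τ := by
    intro x hx
    refine (ofF_killed_iff (D.Δ_inv ℚ_[ℓ]) τ (D.gal_Δ hx)).mp ?_
    rw [hτ, ← extT_ofF]
    exact D.killed_of_tateSpan hx (Submodule.subset_span hT)
  have hsp : extT ℚ_[ℓ] a ∈ D.hodgeSpan j k := Submodule.subset_span ⟨a, ha, rfl⟩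
  refine D.isTate_of_killed (D.hodgeSpan_wt hsp) fun x hx => ?_
  have h1 : ∀ y ∈ D.mt ℚ_[ℓ], y * (x - τ x) = (x - τ x) * y := fun y hy =>
    comm_of_proj hτ2 hτM hτG hx hy
  have hb : Blk D.wt (x - τ x) := by
    rw [blk_iff, Matrix.mul_sub, Matrix.sub_mul, blk_iff.mp (D.mt_blk (hτ1 x)),
      blk_iff.mp (D.gal_blk hx)]
  have h2 := D.mem_span_hodgeEnd hb h1
  have h3 : ∀ e, D.IsHodgeEnd e → (x - τ x) * ext ℚ_[ℓ] e = ext ℚ_[ℓ] e * (x - τ x) := by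
    intro e he
    rw [Matrix.mul_sub, Matrix.sub_mul, D.hodgeEnd_comm he (hτ1 x),
      D.gal_comm_of_tate (hE _ (D.isHodge_of_end he)) hx]
  have h4 : ∀ j k, ∀ a ∈ D.tateSpan j k ⊓ D.hodgeSpan j k, der (x - τ x) a = 0 := by
    intro j k a ha
    rw [← derL_apply, map_sub, LinearMap.sub_apply, derL_apply, derL_apply,
      D.killed_of_tateSpan hx ha.1, D.killed_of_hodgeSpan (hτ1 x) ha.2, sub_self]
  have h5 := hC _ h2 h3 h4 j k _ hsp
  rw [← derL_apply, map_sub, LinearMap.sub_apply, derL_apply, derL_apply,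
    D.killed_of_hodgeSpan (hτ1 x) hsp, sub_zero] at h5
  exact h5

end Cohomology

end

end Pool.Agent.H67FP
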