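import Pool.Agent.H60FP.Defs
import Pool.Agent.H67FP.Main

/-!
# A Hodge structure with the trivial Galois action
-/

set_option autoImplicit false

open Pool.Agent.H67FP

namespace Pool.Agent.H60FP

noncomputable section

/-- The Hodge structure with the trivial Galois action. -/
def triv {ι : Type} [Fintype ι] [DecidableEq ι] (Y : HodgeData ι) :
    haveI : Fact (Nat.Prime 2) := ⟨Nat.prime_two⟩
    Cohomology 2 PUnit ι :=
  haveI : Fact (Nat.Prime 2) := ⟨Nat.prime_two⟩
  { wt := Y.wt
    d := Y.d
    Δ := Y.Δ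
    H := Y.H
    ρ := 1
    χ := 1
    det_Δ := Y.det_Δ
    wt_Δ := Y.wt_Δ
    wt_H := Y.wt_H
    wt_ρ := by
      intro γ i s h
      by_contra hne
      apply h
      have h1 : i ≠ s := fun h2 => hne (by rw [h2])
      simp [Matrix.one_apply_ne h1]
    H_Δ := Y.H_Δ
    ρ_Δ := by
      intro γ
      have h1 : ((1 : PUnit →* (Matrix ι ι ℤ_[2])ˣ) γ).1.map (fun z : ℤ_[2] => (z : ℚ_[2])) =
          1 := by
        ext i s
        simp only [MonoidHom.one_apply, Units.val_one, Matrix.map_apply, Matrix.one_apply]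
        split_ifs <;> simp
      rw [h1]
      simp }

end

end Pool.Agent.H60FP
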